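import Pool.Agent.H46.CH.AS
import Pool.Agent.H65.VR.GM

/-!
# Row EBn: realised accepted configurations
-/

set_option autoImplicit false

namespace Pool.Agent.H20.CHE

open Classical Pool.Agent.H8.VR Pool.Agent.H69.VR Pool.Agent.H46.CH

lemma gen_ne {N Q L T O A : Type} {S : Sg N Q L T O} {lam : A → L} {th : A → A → T} {s : N}
    {X : Set A} {c : A → Q} (h : S.Gen lam th s X c) : X.Nonempty := by
  induction h with
  | pt s a c h => exact Set.singleton_nonempty a
  | op o X Y c c₁ c₂ _ _ _ _ _ _ _ ih1 _ => exact ih1.mono Set.subset_union_left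

lemma num_pos {A : Type} [Fintype A] {P : A → Prop} {a : A} (h : P a) : num P ≠ 0 := by
  rw [num]
  exact Finset.card_ne_zero_of_mem (Finset.mem_filter.2 ⟨Finset.mem_univ a, h⟩)

lemma sum_num' {A I : Type} [Fintype A] [Fintype I] (P : A → Prop) (t : A → I) :
    ∑ σ, num (fun a => P a ∧ t a = σ) = num P := by
  rw [num, Finset.card_eq_sum_card_fiberwise (f := t) (t := Finset.univ)
    (fun a _ => Finset.mem_coe.2 (Finset.mem_univ _))]
  refine Finset.sum_congr rfl fun σ _ => ?_
  rw [num, Finset.filter_filter]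
  exact congrArg Finset.card (Finset.ext fun a => by simp)

lemma num_sub {A : Type} [Fintype A] (X : Set A) (P : A → Prop) :
    (num fun a : {a // a ∈ X} => P a.1) = num fun a => a ∈ X ∧ P a := by
  rw [num, num]
  refine Finset.card_bij (fun a _ => a.1) ?_ ?_ ?_
  · intro a ha
    simp only [Finset.mem_filter, Finset.mem_univ, true_and] at ha ⊢
    exact ⟨a.2, ha⟩
  · intro a _ b _ hab
    exact Subtype.ext hab
  · intro b hb
    simp only [Finset.mem_filter, Finset.mem_univ, true_and] at hb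
    refine ⟨⟨b, hb.1⟩, ?_, rfl⟩
    simp only [Finset.mem_filter, Finset.mem_univ, true_and]
    exact hb.2

theorem pf_EBn (hTR : T_TR) : Pool.Agent.H46.CH.T_EBn := by
  intro N Q L T O C _ _ _ _ V s₀ Ac hAc c hRD hc
  obtain ⟨A, _, lam, th, X, E, col, t, hSym, hGen, hEX, ht, h1, -, h3, h4⟩ := hRD
  have hE : ∀ a, a ∉ E := by
    intro a ha
    have := h4 (t a)
    exact num_pos (P := fun b => b ∈ E ∧ t b = t a) ⟨ha, rfl⟩ this.symm
  obtain ⟨-, -, -, -, hTR5⟩ := hTR N Q L T O C V.W
  have key : ∀ a ∈ X, (col a, stt V.W.K lam th X a) = t a ∧ Ac (t a) := by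
    intro a ha
    have hcn : c (t a) ≠ 0 := by
      rw [h3]
      exact num_pos (P := fun b => b ∈ X ∧ b ∉ E ∧ t b = t a) ⟨ha, hE a, rfl⟩
    have hA := hc _ hcn
    have hf := hAc _ hA
    obtain ⟨t1, t2⟩ := ht a ha
    refine ⟨?_, hA⟩
    refine Prod.ext t1.symm (Prod.ext t2.symm ?_)
    rw [hf, t1]
    funext z
    have h := h1 a ha (hE a) z
    rw [hf, t1] at h
    exact hTR5 _ _ _ h
  obtain ⟨x0, hx0⟩ := gen_ne hGen
  let f : A → {a // a ∈ X} := fun a => if h : a ∈ X then ⟨a, h⟩ else ⟨x0, hx0⟩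
  have hf : ∀ a (h : a ∈ X), f a = ⟨a, h⟩ := fun a h => dif_pos h
  have hfu : f '' X = Set.univ := by
    ext b
    simp only [Set.mem_image, Set.mem_univ, iff_true]
    exact ⟨b.1, b.2, hf _ _⟩
  refine ⟨{a // a ∈ X}, inferInstance, fun a => lam a.1, fun a b => th a.1 b.1,
    fun a => col a.1, ?_, ?_, ?_, ?_⟩
  · intro a b hab
    exact hSym a.1 b.1 fun h => hab (Subtype.ext h)
  · rw [← hfu]
    refine Pool.Agent.H65.VR.pf_GM N Q L T O A {a // a ∈ X} V.S lam th s₀ X col hGen f ?_ _ _ _
      ?_ ?_ ?_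
    · intro a ha b hb hab
      rw [hf a ha, hf b hb] at hab
      exact congrArg Subtype.val hab
    · intro a ha
      rw [hf a ha]
    · intro a ha b hb _
      rw [hf a ha, hf b hb]
    · intro a ha
      rw [hf a ha]
  · have h5 : tot c = num fun a => a ∈ X := by
      rw [tot, ← sum_num' (fun a => a ∈ X) t]
      refine Finset.sum_congr rfl fun σ _ => ?_
      rw [h3 σ]
      congr 1
      funext a
      simp [hE a]
    rw [h5, num, Fintype.card_subtype]
  · intro a
    obtain ⟨k1, k2⟩ := key a.1 a.2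
    have h6 : stt V.W.K (fun a : {a // a ∈ X} => lam a.1) (fun a b => th a.1 b.1) Set.univ a =
        stt V.W.K lam th X a.1 := by
      rw [stt, stt]
      refine Prod.ext rfl ?_
      funext z
      have h7 : kn (fun a : {a // a ∈ X} => lam a.1) (fun a b => th a.1 b.1) Set.univ a z =
          kn lam th X a.1 z := by
        rw [kn, kn, ← num_sub X fun b => b ≠ a.1 ∧ lam b = z.1 ∧ th a.1 b = z.2]
        congr 1
        funext b
        simp only [Set.mem_univ, true_and, ne_eq, Subtype.ext_iff]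
      exact congrArg V.W.K.cp h7
    rw [h6]
    have h8 : (col a.1, stt V.W.K lam th X a.1) = t a.1 := k1
    rw [h8]
    exact k2

end Pool.Agent.H20.CHE
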