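import Pool.Agent.H46.CH.AS
import Pool.Agent.H65.VR.GM

/-!
# The theorem for composition systems with changes of the colours of few elements (ESn)
-/

set_option autoImplicit false

namespace Pool.Agent.H20.CHE

open Classical Pool.Agent.H8.VR Pool.Agent.H69.VR Pool.Agent.H46.CH

theorem num_equiv {A B : Type} [Fintype A] [Fintype B] (e : A ≃ B) (P : B → Prop) :
    num (fun a => P (e a)) = num P := by
  unfold num
  refine Finset.card_bij (fun a _ => e a) (fun a ha => ?_) (fun a _ b _ h => e.injective h)
    (fun b hb => ⟨e.symm b, ?_, e.apply_symm_apply b⟩)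
  · rw [Finset.mem_filter] at ha ⊢
    exact ⟨Finset.mem_univ _, ha.2⟩
  · rw [Finset.mem_filter] at hb ⊢
    refine ⟨Finset.mem_univ _, ?_⟩
    rw [e.apply_symm_apply]
    exact hb.2

section
variable {N Q L T O C : Type}

/-- the system with the final numbers in the colours, without changes of colours -/
def Sp (S : Sg N Q L T O) (C : Type) : Sg N (Q × (L × T → C)) L T O where
  pt := fun s q l => S.pt s q.1 l
  s := S.s
  t := S.t
  u := S.u
  f := fun _ q => q
  g := fun _ q => q
  al := fun o q q' θ => S.al o q.1 q'.1 θ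
  D := S.D
  sw := S.sw
  sw_sw := S.sw_sw

/-- the same with the changes of the colours -/
def Sq (S : Sg N Q L T O) (C : Type) : Sg N (Q × (L × T → C)) L T O :=
  { Sp S C with f := fun o q => (S.f o q.1, q.2), g := fun o q => (S.g o q.1, q.2) }

theorem gen_up {A : Type} (S : Sg N Q L T O) (lam : A → L) (th : A → A → T)
    (r : A → (L × T → C)) (s : N) (X : Set A) (c : A → Q) (h : S.Gen lam th s X c) :
    (Sq S C).Gen lam th s X (fun a => (c a, r a)) := by
  induction h with
  | pt s a c h => exact Sg.Gen.pt (S := Sq S C) s a (fun a => (c a, r a)) h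
  | op o X Y c c₁ c₂ _ _ hd hD ha hX hY ih₁ ih₂ =>
    refine Sg.Gen.op (S := Sq S C) o X Y _ (fun a => (c₁ a, r a)) (fun a => (c₂ a, r a)) ih₁ ih₂ hd
      hD ha (fun a h => ?_) (fun a h => ?_)
    · show (c a, r a) = (S.f o (c₁ a), r a)
      rw [hX a h]
    · show (c a, r a) = (S.g o (c₂ a), r a)
      rw [hY a h]

theorem gen_dn {A : Type} (S : Sg N Q L T O) (lam : A → L) (th : A → A → T) (s : N) (X : Set A)
    (c : A → Q × (L × T → C)) (h : (Sq S C).Gen lam th s X c) :
    S.Gen lam th s X (fun a => (c a).1) := by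
  induction h with
  | pt s a c h => exact Sg.Gen.pt (S := S) s a (fun a => (c a).1) h
  | op o X Y c c₁ c₂ _ _ hd hD ha hX hY ih₁ ih₂ =>
    refine Sg.Gen.op (S := S) o X Y _ (fun a => (c₁ a).1) (fun a => (c₂ a).1) ih₁ ih₂ hd
      hD ha (fun a h => ?_) (fun a h => ?_)
    · show (c a).1 = S.f o (c₁ a).1
      have h1 : c a = (S.f o (c₁ a).1, (c₁ a).2) := hX a h
      rw [h1]
    · show (c a).1 = S.g o (c₂ a).1
      have h1 : c a = (S.g o (c₂ a).1, (c₂ a).2) := hY a h
      rw [h1]

end

theorem pf_ESn (hPD : T_PD) (hEC : T_ECn) : Pool.Agent.H46.CH.T_ESn := by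
  intro N Q L T O C _ _ _ _ _ _ _ S K s₀ Ok rg k₁ hrg htr hk
  obtain ⟨k₀, P, hP, hper⟩ := hPD C K
  let W : Pm N (Q × (L × T → C)) L T O C :=
    { S := Sp S C
      K := K
      af := Prod.snd
      k₀ := k₀
      P := P
      H := k₀ + 2 * (k₀ * Fintype.card T) + 2 + k₁
      pos := hP
      per := hper
      kH := by omega
      hH := by omega
      fid := fun _ _ => rfl
      gid := fun _ _ => rfl
      tr := htr }
  let V : Pn N (Q × (L × T → C)) L T O C :=
    { W := W
      f := fun o q => (S.f o q.1, q.2)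
      g := fun o q => (S.g o q.1, q.2)
      rg := fun q => rg q.1
      fr := fun o q h => Prod.ext (hrg o q.1 h).1 rfl
      gr := fun o q h => Prod.ext (hrg o q.1 h).2 rfl
      ff := fun _ _ => rfl
      gg := fun _ _ => rfl }
  have hSml : V.Sml := by
    intro A _ lam th s X c hG
    have h1 := hk A lam th s X (fun a => (c a).1) (gen_dn S lam th s X c hG)
    have h2 : V.W.H = k₀ + 2 * (k₀ * Fintype.card T) + 2 + k₁ := rfl
    have h3 : (num fun a => a ∈ X ∧ ¬ V.rg (c a)) ≤ k₁ := h1
    omega
  let Ac : Ix (Q × (L × T → C)) L T C → Prop := fun σ => σ.2.2 = σ.1.2 ∧ Ok σ.2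
  have hW := hEC N (Q × (L × T → C)) L T O C V hSml s₀ Ac (fun σ h => h.1)
  have he : {n | SysMem S K s₀ Ok n} = V.Lm s₀ Ac := by
    ext n
    constructor
    · rintro ⟨lam, th, c, hs, hG, hok⟩
      refine ⟨Fin n, inferInstance, lam, th, fun a => (c a, (stt K lam th Set.univ a).2), hs,
        gen_up S lam th _ s₀ Set.univ c hG, Fintype.card_fin n, fun a => ⟨rfl, hok a⟩⟩
    · rintro ⟨A, hA, lam, th, col, hs, hG, hn, hac⟩
      have e : A ≃ Fin n := Fintype.equivFinOfCardEq hn
      have hG' := gen_dn S lam th s₀ Set.univ col hG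
      have hG2 := Pool.Agent.H65.VR.pf_GM N Q L T O A (Fin n) S lam th s₀ Set.univ
        (fun a => (col a).1) hG' e e.injective.injOn (fun b => lam (e.symm b))
        (fun b b' => th (e.symm b) (e.symm b')) (fun b => (col (e.symm b)).1)
        (fun a _ => by simp) (fun a _ b _ _ => by simp) (fun a _ => by simp)
      rw [Set.image_univ, e.range_eq_univ] at hG2
      refine ⟨fun b => lam (e.symm b), fun b b' => th (e.symm b) (e.symm b'),
        fun b => (col (e.symm b)).1, fun a b hab => ?_, hG2, fun b => ?_⟩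
      · exact hs (e.symm a) (e.symm b) fun h => hab (e.symm.injective h)
      · have h1 := (hac (e.symm b)).2
        have h2 : stt K (fun b => lam (e.symm b)) (fun b b' => th (e.symm b) (e.symm b'))
            Set.univ b = stt K lam th Set.univ (e.symm b) := by
          unfold stt kn
          refine Prod.ext rfl (funext fun z => ?_)
          simp only
          rw [← num_equiv e]
          congr 2
          funext a
          simp only [Set.mem_univ, true_and, e.symm_apply_apply, ne_eq, eq_iff_iff]
          constructor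
          · rintro ⟨h3, h4⟩
            exact ⟨fun h5 => h3 (by rw [h5, e.apply_symm_apply]), h4⟩
          · rintro ⟨h3, h4⟩
            exact ⟨fun h5 => h3 (by rw [← h5, e.symm_apply_apply]), h4⟩
        rw [h2]
        exact h1
  rw [he]
  exact hW

end Pool.Agent.H20.CHE
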